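import Mathlib

/-!
MP_06877e_nt, Q1: the second identity fails for the prime `p = 107`.
-/

set_option autoImplicit false

namespace Pool.Agent.Results.MP_06877e_nt.FailsAt107

open Complex

/-- `S_p(x) = ∏_{k=1}^{(p-1)/2} (x - e^{2πi k²/p})`. -/
noncomputable def Sp (p : ℕ) (x : ℂ) : ℂ :=
  ∏ k ∈ Finset.Icc 1 ((p - 1) / 2), (x - exp (2 * Real.pi * I * (k : ℂ) ^ 2 / p))

/-- `ω = e^{2πi/3}`. -/
noncomputable def om : ℂ := exp (2 * Real.pi * I / 3)

/-- `N_p`, the number of `1 ≤ k < p/3` with `(k/p) = 1`. -/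
def Np (p : ℕ) : ℕ := ((Finset.Icc 1 p).filter fun k => 3 * k < p ∧ jacobiSym (k : ℤ) p = 1).card

/-- `(x, y)` is the least solution in positive integers of `3 x² + 4 (p/3) = p y²`. -/
def IsLeastSol (p x y : ℕ) : Prop :=
  (0 < x ∧ 0 < y ∧ 3 * (x : ℤ) ^ 2 + 4 * jacobiSym p 3 = p * (y : ℤ) ^ 2) ∧
  ∀ x' y' : ℕ, 0 < x' → 0 < y' → 3 * (x' : ℤ) ^ 2 + 4 * jacobiSym p 3 = p * (y' : ℤ) ^ 2 →
    x ≤ x' ∧ y ≤ y'

/-- `σ_p = (-1)^{(h+1)/2} (p/3)`, where `h` stands for the class number `h(-p)`. -/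
noncomputable def sig (p h : ℕ) : ℂ := (-1) ^ ((h + 1) / 2) * (jacobiSym p 3 : ℂ)

/-- `c_p`. -/
noncomputable def cp (p : ℕ) : ℂ := if p % 12 = 7 then I else (-1) ^ Np p * I * om

/-- `d_p`. -/
noncomputable def dp (p : ℕ) : ℂ := if p % 12 = 7 then I else (-1) ^ Np p * I * starRingEnd ℂ om

/-- The first identity of Q1 (with `h` in place of `h(-p)`). -/
def Identity1 (p h x y : ℕ) : Prop :=
  Sp p om = sig p h * cp p * (1 / 2 * ((x * Real.sqrt 3 - y * Real.sqrt p : ℝ) : ℂ))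

/-- The second identity of Q1 (with `h` in place of `h(-p)`). -/
def Identity2 (p h x y : ℕ) : Prop :=
  Sp p (starRingEnd ℂ om) =
    -sig p h * dp p * (1 / 2 * ((x * Real.sqrt 3 + y * Real.sqrt p : ℝ) : ℂ))

theorem conj_om : starRingEnd ℂ om = exp (-(2 * Real.pi * I / 3)) := by
  have h : (2 * Real.pi * I / 3 : ℂ) = ((2 * Real.pi / 3 : ℝ) : ℂ) * I := by push_cast; ring
  rw [om, ← Complex.exp_conj, h, map_mul, Complex.conj_I, Complex.conj_ofReal]
  congr 1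
  ring

theorem norm_om : ‖starRingEnd ℂ om‖ = 1 := by
  rw [Complex.norm_conj, om]
  have : (2 * Real.pi * I / 3 : ℂ) = ((2 * Real.pi / 3 : ℝ) : ℂ) * I := by push_cast; ring
  rw [this, Complex.norm_exp_ofReal_mul_I]

/-- the modulus of a factor -/
theorem norm_factor (k : ℕ) :
    ‖starRingEnd ℂ om - exp (2 * Real.pi * I * (k : ℂ) ^ 2 / (107 : ℕ))‖ =
      2 * |Real.sin (Real.pi * ((107 + 3 * k ^ 2 : ℕ) : ℝ) / 321)| := by
  have h1 : starRingEnd ℂ om - exp (2 * Real.pi * I * (k : ℂ) ^ 2 / (107 : ℕ)) =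
      -(exp (-(2 * Real.pi * I / 3))) *
        (exp (I * ((2 * (Real.pi * ((107 + 3 * k ^ 2 : ℕ) : ℝ) / 321) : ℝ) : ℂ)) - 1) := by
    rw [conj_om, mul_sub, neg_mul, ← Complex.exp_add, mul_one]
    have : (-(2 * Real.pi * I / 3) : ℂ) +
        I * ((2 * (Real.pi * ((107 + 3 * k ^ 2 : ℕ) : ℝ) / 321) : ℝ) : ℂ) =
        2 * Real.pi * I * (k : ℂ) ^ 2 / (107 : ℕ) := by
      push_cast; ring
    rw [this]
    ring
  rw [h1, norm_mul, norm_neg, ← conj_om, norm_om, one_mul, Complex.norm_exp_I_mul_ofReal_sub_one,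
    Real.norm_eq_abs, abs_mul]
  norm_num

/-- rational lower bound for `sin (π m / 321)` -/
def L (m : ℕ) : ℚ :=
  let r := m % 321
  let y : ℚ := (min r (321 - r) : ℕ) / 321
  if 6 * y ≤ 1 then 3 * y else 1 / 4 + 3 / 2 * y

theorem sin_lb (y : ℝ) (h0 : 0 ≤ y) (h1 : y ≤ 1 / 2) :
    (if 6 * y ≤ 1 then 3 * y else 1 / 4 + 3 / 2 * y) ≤ Real.sin (Real.pi * y) := by
  have hc := strictConcaveOn_sin_Icc.concaveOn
  have hpi := Real.pi_pos
  split_ifs with h
  · have := hc.2 (show (0 : ℝ) ∈ Set.Icc 0 Real.pi from ⟨le_refl _, hpi.le⟩)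
      (show Real.pi / 6 ∈ Set.Icc 0 Real.pi from ⟨by positivity, by linarith⟩)
      (show (0 : ℝ) ≤ 1 - 6 * y by linarith) (show (0 : ℝ) ≤ 6 * y by linarith) (by ring)
    simp only [smul_eq_mul, Real.sin_zero, Real.sin_pi_div_six] at this
    have e : (1 - 6 * y) * 0 + 6 * y * (Real.pi / 6) = Real.pi * y := by ring
    rw [e] at this
    linarith
  · push Not at h
    have := hc.2 (show Real.pi / 6 ∈ Set.Icc 0 Real.pi from ⟨by positivity, by linarith⟩)
      (show Real.pi / 2 ∈ Set.Icc 0 Real.pi from ⟨by positivity, by linarith⟩)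
      (show (0 : ℝ) ≤ 3 / 2 - 3 * y by linarith) (show (0 : ℝ) ≤ 3 * y - 1 / 2 by linarith) (by ring)
    simp only [smul_eq_mul, Real.sin_pi_div_two, Real.sin_pi_div_six] at this
    have e : (3 / 2 - 3 * y) * (Real.pi / 6) + (3 * y - 1 / 2) * (Real.pi / 2) = Real.pi * y := by
      ring
    rw [e] at this
    linarith

theorem L_le (m : ℕ) : ((L m : ℚ) : ℝ) ≤ |Real.sin (Real.pi * (m : ℝ) / 321)| := by
  have hm : (m : ℝ) = 321 * ((m / 321 : ℕ) : ℝ) + ((m % 321 : ℕ) : ℝ) := by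
    exact_mod_cast (Nat.div_add_mod m 321).symm
  set r := m % 321 with hr
  have hr1 : r < 321 := Nat.mod_lt _ (by norm_num)
  have e1 : Real.pi * (m : ℝ) / 321 = Real.pi * ((r : ℝ) / 321) + ((m / 321 : ℕ) : ℝ) * Real.pi := by
    rw [hm]; ring
  have e2 : |Real.sin (Real.pi * (m : ℝ) / 321)| = |Real.sin (Real.pi * ((r : ℝ) / 321))| := by
    rw [e1, Real.sin_add_nat_mul_pi, abs_mul, abs_pow]
    norm_num
  rw [e2]
  have e3 : |Real.sin (Real.pi * ((r : ℝ) / 321))| =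
      |Real.sin (Real.pi * (((min r (321 - r) : ℕ) : ℝ) / 321))| := by
    rcases le_total r (321 - r) with h | h
    · rw [min_eq_left h]
    · rw [min_eq_right h]
      have : Real.pi * (((321 - r : ℕ) : ℝ) / 321) = Real.pi - Real.pi * ((r : ℝ) / 321) := by
        rw [Nat.cast_sub hr1.le]; push_cast; ring
      rw [this, Real.sin_pi_sub]
  rw [e3]
  refine le_trans ?_ (le_abs_self _)
  have hy0 : (0 : ℝ) ≤ ((min r (321 - r) : ℕ) : ℝ) / 321 := by positivity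
  have hy1 : ((min r (321 - r) : ℕ) : ℝ) / 321 ≤ 1 / 2 := by
    have : 2 * (min r (321 - r)) ≤ 321 := by omega
    have h2 : (2 : ℝ) * ((min r (321 - r) : ℕ) : ℝ) ≤ 321 := by exact_mod_cast this
    linarith
  have := sin_lb _ hy0 hy1
  refine le_trans (le_of_eq ?_) this
  unfold L
  simp only [← hr]
  have hiff : (6 * (((min r (321 - r) : ℕ) : ℚ) / 321) ≤ 1) ↔
      (6 * (((min r (321 - r) : ℕ) : ℝ) / 321) ≤ 1) := by
    rw [← Rat.cast_le (K := ℝ)]
    generalize min r (321 - r) = t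
    push_cast
    rfl
  by_cases h : 6 * (((min r (321 - r) : ℕ) : ℚ) / 321) ≤ 1
  · rw [if_pos h, if_pos (hiff.1 h)]; push_cast; ring
  · rw [if_neg h, if_neg (fun h' => h (hiff.2 h'))]; push_cast; ring

theorem L_nonneg (m : ℕ) : 0 ≤ L m := by
  unfold L
  simp only
  split_ifs <;> positivity

theorem prod_bound : (100 : ℚ) < ∏ k ∈ Finset.Icc 1 53, (2 * L (107 + 3 * k ^ 2)) := by
  decide +kernel

theorem norm_Sp : (100 : ℝ) < ‖Sp 107 (starRingEnd ℂ om)‖ := by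
  unfold Sp
  rw [norm_prod]
  have h1 : (100 : ℝ) < ∏ k ∈ Finset.Icc 1 53, (2 * ((L (107 + 3 * k ^ 2) : ℚ) : ℝ)) := by
    have := (Rat.cast_lt (K := ℝ)).2 prod_bound
    rw [Rat.cast_prod] at this
    simpa using this
  refine lt_of_lt_of_le h1 ?_
  have : (107 - 1) / 2 = 53 := by norm_num
  rw [this]
  apply Finset.prod_le_prod
  · intro k _
    have := L_nonneg (107 + 3 * k ^ 2)
    have h' : (0 : ℝ) ≤ ((L (107 + 3 * k ^ 2) : ℚ) : ℝ) := by exact_mod_cast this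
    positivity
  · intro k _
    have h2 := norm_factor k
    rw [h2]
    have h3 := L_le (107 + 3 * k ^ 2)
    linarith

theorem leastSol : IsLeastSol 107 12 2 := by
  have hj : jacobiSym ((107 : ℕ) : ℤ) 3 = -1 := by norm_num
  refine ⟨⟨by norm_num, by norm_num, by rw [hj]; norm_num⟩, ?_⟩
  intro x' y' hx hy h
  rw [hj] at h
  have hy2 : 2 ≤ y' := by
    by_contra hlt
    have h1 : y' = 1 := by omega
    subst h1
    have h2 : 3 * (x' : ℤ) ^ 2 = 111 := by push_cast at h; linarith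
    have h3 : (x' : ℤ) ^ 2 = 37 := by linarith
    have h4 : x' ^ 2 = 37 := by exact_mod_cast h3
    have : x' ≤ 6 := by nlinarith
    interval_cases x' <;> omega
  refine ⟨?_, hy2⟩
  have hy2' : (2 : ℤ) ≤ y' := by exact_mod_cast hy2
  have h5 : (4 : ℤ) ≤ (y' : ℤ) ^ 2 := by nlinarith
  have h6 : (144 : ℤ) ≤ (x' : ℤ) ^ 2 := by push_cast at h; linarith
  have h7 : 12 ^ 2 ≤ x' ^ 2 := by exact_mod_cast h6
  exact (Nat.pow_le_pow_iff_left (by norm_num)).1 h7

/-- Disproof of Q1: for `p = 107` (and the least solution `(x, y)` of the Pell-type equation) the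
second identity fails, whatever the value of the class number `h`. -/
theorem result : ∃ p : ℕ, p.Prime ∧ 3 < p ∧ p % 4 = 3 ∧ ∃ x y : ℕ, IsLeastSol p x y ∧
    ∀ h : ℕ, ¬ (Identity1 p h x y ∧ Identity2 p h x y) := by
  refine ⟨107, by norm_num, by norm_num, by norm_num, 12, 2, leastSol, ?_⟩
  rintro h ⟨-, h2⟩
  unfold Identity2 at h2
  have h3 := congrArg norm h2
  have hj : jacobiSym ((107 : ℕ) : ℤ) 3 = -1 := by norm_num
  have hs : ‖sig 107 h‖ = 1 := by
    unfold sig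
    rw [hj]
    simp
  have hd : ‖dp 107‖ = 1 := by
    unfold dp
    rw [if_neg (by norm_num)]
    simp [norm_om]
    rw [← Complex.norm_conj, norm_om]
  rw [norm_mul, norm_mul, norm_neg, hs, hd, norm_mul, Complex.norm_real] at h3
  have h4 := norm_Sp
  rw [h3] at h4
  have s3 : Real.sqrt 3 ≤ 2 := by
    rw [Real.sqrt_le_left (by norm_num)]; norm_num
  have s107 : Real.sqrt ((107 : ℕ) : ℝ) ≤ 11 := by
    rw [Real.sqrt_le_left (by norm_num)]; norm_num
  have s3' := Real.sqrt_nonneg 3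
  have s107' := Real.sqrt_nonneg ((107 : ℕ) : ℝ)
  rw [Real.norm_of_nonneg (by positivity)] at h4
  norm_num at h4
  norm_num at s107
  nlinarith

end Pool.Agent.Results.MP_06877e_nt.FailsAt107
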